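import Pool.Agent.W_be22fd_h24.ZItem
import Pool.Agent.W_be22fd_h31.MoebFam
import Pool.Agent.W_be22fd_h83.Target

/-!
# The M item: Moebius family and children give a local test; all items; analysis half
-/

open Polynomial Real MeasureTheory

namespace Pool.Agent.Be22.Ker

open Pool.Agent.W_be22fd_h78 (Dom AnalysisTarget)
open Pool.Agent.W_be22fd_h76sel (Item)

/-- **M item.** -/
theorem item_M' {S : Set ℝ[X]} {L : List ℂ[X]} (hnt : S.Nontrivial) (hL : Diffs S L)
    {t : ℕ → ℝ} {K : ℕ} {E g : ℝ} (hg : 0 ≤ g) (hE : E = 1 ∨ (E = 2 ∧ 1000 ≤ g))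
    (hch : ∀ k, 1 ≤ k → k < K → ∀ x, t k < x → x < t (k + 1) →
      ∃ S' ⊆ S, ∃ a b, F S' g a b ∧ t (k - 1) ≤ a ∧ a ≤ b ∧ b ≤ x ∧ Dom E S S' x)
    {k : ℕ} {e ρ x0 x1 : ℝ} (hv : (Item.M k e ρ x0 x1).Valid t K) :
    LocalTest L (Item.M k e ρ x0 x1).supp (g / 2000) := by
  have hv' := hv
  obtain ⟨hk1, hkK, hρ, w1, hlt, w2, w3, w4, w5, -, -⟩ := hv'
  have h1 : e - ρ < x0 := by linarith
  have h2 : x1 < e + ρ := by linarith
  have h3 : ρ / 64 ≤ x1 - x0 := by linarith
  have hEpos : 0 < E := by rcases hE with h | ⟨h, _⟩ <;> rw [h] <;> norm_num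
  have main := item (Moeb.fam hρ h1 h2) hlt hL hnt (R := (Item.M k e ρ x0 x1).supp) (C := 7)
    (by norm_num) ?_ (g := g) hEpos (κ := 1 / 50) (by norm_num) ?_
  · refine main.mono subset_rfl ?_
    rw [le_div_iff₀ (by norm_num)]
    rcases hE with h | ⟨h, h'⟩
    · rw [h, log_one]; linarith
    · rw [h]
      have := log_two_lt_d9
      linarith
  · intro y
    by_cases hy : y ∈ (Item.M k e ρ x0 x1).supp
    · rw [Set.indicator_of_mem hy, Pi.one_apply, mul_one]
      exact Moeb.integral_phi_le hρ h1 h2 hlt h3 y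
    · rw [Set.indicator_of_notMem hy, mul_zero, mul_zero]
      apply le_of_eq
      rw [intervalIntegral.integral_of_le hlt.le]
      refine setIntegral_eq_zero_of_forall_eq_zero fun x hx => ?_
      apply Moeb.phi_eq_zero hρ
      · rw [abs_lt]; constructor <;> linarith [hx.1, hx.2]
      · simp only [Item.supp, Metric.mem_ball, Complex.dist_eq, not_lt] at hy
        exact hy
  · intro x hx
    obtain ⟨_, _, u3, u4⟩ := hv.useM hx.1.le hx.2.le
    obtain ⟨S', hSS, a', b', hF, ha', hab', hb', hD⟩ := hch k hk1 hkK x (by linarith [hx.1])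
      (by linarith [hx.2])
    refine ⟨S', hSS, a', b', hF, hD, 1, 0, Or.inl (by norm_num), ?_⟩
    intro y hy _ _
    have hy1 : y ∈ Pool.Agent.W_be22fd_h76sel.N (t (k - 1)) x := by
      refine Pool.Agent.W_be22fd_h76sel.N_mono hab' ha' hb' ?_
      rw [Pool.Agent.W_be22fd_h76sel.N]
      rw [Nb, dsc] at hy
      convert hy using 2
      · congr 1; ring
      · ring
    have hy2 := u4 hy1
    rw [Metric.mem_closedBall, Complex.dist_eq] at hy2
    exact Moeb.le_phi hρ u3 hy2

/-- Every valid item carries a local test. -/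
theorem itemLocal : ItemLocal := by
  intro S L t K E g _ hnt hL hg hE ht hch it hv
  cases it with
  | M k e ρ x0 x1 => exact item_M' hnt hL hg hE hch hv
  | Z k p s τ B => exact item_Z hnt hL hg hE ht hch hv

/-- **The analysis half.** -/
theorem analysisTarget : AnalysisTarget := analysis_of_item itemLocal

end Pool.Agent.Be22.Ker
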