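import Pool.Agent.W_be22fd_h24.Poly

/-!
MP_be22fd_co: module B, part 1: `B_adm` and `B_total`.
-/

namespace Pool.Agent.W_be22fd_h24

open MeasureTheory Polynomial Pool.Agent.W_be22fd_h78

variable {ι : Type}

lemma spread_eq (f : ι → ℝ → ℝ) (S : Finset ι) (hS : S.Nonempty) (t : ℝ) :
    ∃ a ∈ S, ∃ b ∈ S, spread f S t = f a t - f b t := by
  obtain ⟨a, ha, hae⟩ := Finset.exists_mem_eq_sup' hS (fun i => f i t)
  obtain ⟨b, hb, hbe⟩ := Finset.exists_mem_eq_inf' hS (fun i => f i t)
  refine ⟨a, ha, b, hb, ?_⟩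
  unfold spread
  rw [dif_pos hS, hae, hbe]

lemma abs_le_spread (f : ι → ℝ → ℝ) (S : Finset ι) (t : ℝ) {a b : ι} (ha : a ∈ S) (hb : b ∈ S) :
    |f a t - f b t| ≤ spread f S t := by
  have hS : S.Nonempty := ⟨a, ha⟩
  unfold spread
  rw [dif_pos hS]
  have h1 : f a t ≤ S.sup' hS (fun i => f i t) := Finset.le_sup' (fun i => f i t) ha
  have h2 : f b t ≤ S.sup' hS (fun i => f i t) := Finset.le_sup' (fun i => f i t) hb
  have h3 : S.inf' hS (fun i => f i t) ≤ f a t := Finset.inf'_le (fun i => f i t) ha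
  have h4 : S.inf' hS (fun i => f i t) ≤ f b t := Finset.inf'_le (fun i => f i t) hb
  rw [abs_le]; constructor <;> linarith

lemma spread_nonneg (f : ι → ℝ → ℝ) (S : Finset ι) (t : ℝ) : 0 ≤ spread f S t := by
  by_cases hS : S.Nonempty
  · obtain ⟨a, ha⟩ := hS
    exact le_trans (abs_nonneg _) (abs_le_spread f S t ha ha)
  · unfold spread; rw [dif_neg hS]

lemma measurable_spread (f : ι → ℝ → ℝ) (S : Finset ι) (hf : ∀ i ∈ S, Measurable (f i)) :
    Measurable (spread f S) := by
  unfold spread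
  by_cases hS : S.Nonempty
  · simp only [hS, dite_true]
    have h1 : Measurable (S.sup' hS f) := Finset.measurable_sup' hS hf
    have h2 : Measurable (S.inf' hS f) :=
      Finset.inf'_induction hS f (fun _ h _ h' => h.inf h') hf
    have e1 : (fun t => S.sup' hS (fun i => f i t)) = S.sup' hS f := by
      funext t; rw [Finset.sup'_apply]
    have e2 : (fun t => S.inf' hS (fun i => f i t)) = S.inf' hS f := by
      funext t; rw [Finset.inf'_apply]
    have := h1.sub h2
    rw [← e1, ← e2] at this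
    exact this
  · simp only [hS, dite_false]
    exact measurable_const

lemma polyFam_measurable {D : ℕ} {f : ι → ℝ → ℝ} (hf : PolyFam D f) (i : ι) :
    Measurable (f i) := by
  obtain ⟨P, -, -, he⟩ := hf
  have : f i = fun t => (P i).eval t := by funext t; exact he i t
  rw [this]
  exact (P i).continuous.measurable

/-- the sum of the `2q`-th powers of the differences -/
noncomputable def E (P : ι → ℝ[X]) (S : Finset ι) (q : ℕ) : ℝ[X] :=
  ∑ a ∈ S, ∑ b ∈ S, (P a - P b) ^ (2 * q)

lemma E_natDegree (P : ι → ℝ[X]) (S : Finset ι) (q D : ℕ) (hP : ∀ i, (P i).natDegree ≤ D) :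
    (E P S q).natDegree ≤ 2 * q * D := by
  unfold E
  refine Polynomial.natDegree_sum_le_of_forall_le _ _ (fun a _ => ?_)
  refine Polynomial.natDegree_sum_le_of_forall_le _ _ (fun b _ => ?_)
  refine le_trans Polynomial.natDegree_pow_le ?_
  refine Nat.mul_le_mul_left _ ?_
  refine le_trans (Polynomial.natDegree_sub_le _ _) ?_
  exact max_le (hP a) (hP b)

lemma E_eval (P : ι → ℝ[X]) (S : Finset ι) (q : ℕ) (t : ℝ) :
    (E P S q).eval t = ∑ a ∈ S, ∑ b ∈ S, ((P a).eval t - (P b).eval t) ^ (2 * q) := by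
  unfold E
  simp [Polynomial.eval_finsetSum]

lemma pow_le_E {P : ι → ℝ[X]} {f : ι → ℝ → ℝ} (he : ∀ i t, f i t = (P i).eval t) (S : Finset ι)
    (hS : S.Nonempty) (q : ℕ) (t : ℝ) :
    (spread f S t) ^ (2 * q) ≤ (E P S q).eval t ∧
      (E P S q).eval t ≤ (S.card : ℝ) ^ 2 * (spread f S t) ^ (2 * q) := by
  rw [E_eval]
  constructor
  · obtain ⟨a, ha, b, hb, hab⟩ := spread_eq f S hS t
    rw [hab, he, he]
    have h1 : ((P a).eval t - (P b).eval t) ^ (2 * q) ≤
        ∑ b ∈ S, ((P a).eval t - (P b).eval t) ^ (2 * q) :=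
      Finset.single_le_sum (f := fun b => ((P a).eval t - (P b).eval t) ^ (2 * q))
        (fun c _ => by rw [pow_mul]; positivity) hb
    have h2 : ∑ b ∈ S, ((P a).eval t - (P b).eval t) ^ (2 * q) ≤
        ∑ a ∈ S, ∑ b ∈ S, ((P a).eval t - (P b).eval t) ^ (2 * q) :=
      Finset.single_le_sum (f := fun a => ∑ b ∈ S, ((P a).eval t - (P b).eval t) ^ (2 * q))
        (fun c _ => Finset.sum_nonneg (fun d _ => by rw [pow_mul]; positivity)) ha
    linarith
  · have h1 : ∀ a ∈ S, ∑ b ∈ S, ((P a).eval t - (P b).eval t) ^ (2 * q) ≤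
        S.card * (spread f S t) ^ (2 * q) := by
      intro a ha
      rw [← nsmul_eq_mul]
      refine Finset.sum_le_card_nsmul _ _ _ (fun b hb => ?_)
      have := abs_le_spread f S t ha hb
      rw [he, he] at this
      rw [← Even.pow_abs (even_two_mul q)]
      exact pow_le_pow_left₀ (abs_nonneg _) this _
    calc ∑ a ∈ S, ∑ b ∈ S, ((P a).eval t - (P b).eval t) ^ (2 * q)
        ≤ S.card • (S.card * (spread f S t) ^ (2 * q)) := Finset.sum_le_card_nsmul _ _ _ h1
      _ = _ := by rw [nsmul_eq_mul]; ring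

lemma ae_spread_pos {D : ℕ} {f : ι → ℝ → ℝ} (hf : PolyFam D f) (S : Finset ι) (hc : 2 ≤ S.card) :
    ∀ᵐ t, 0 < spread f S t := by
  obtain ⟨P, hinj, hdeg, he⟩ := hf
  obtain ⟨i, hi, j, hj, hij⟩ := Finset.one_lt_card.mp (by omega : 1 < S.card)
  have hne : P i - P j ≠ 0 := sub_ne_zero.mpr (fun h => hij (hinj h))
  filter_upwards [ae_eval_ne hne] with t ht
  have h1 := abs_le_spread f S t hi hj
  have h2 : 0 < |f i t - f j t| := by
    rw [abs_pos, he, he]
    simpa using ht
  linarith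

lemma E_ne_zero {D : ℕ} {P : ι → ℝ[X]} {f : ι → ℝ → ℝ} (he : ∀ i t, f i t = (P i).eval t)
    (hf : PolyFam D f) (S : Finset ι) (hc : 2 ≤ S.card) (q : ℕ) : E P S q ≠ 0 := by
  intro h0
  have hS : S.Nonempty := Finset.card_pos.mp (by omega)
  have h1 := ae_spread_pos hf S hc
  obtain ⟨t, ht⟩ := h1.exists
  have h2 := (pow_le_E he S hS q t).1
  rw [h0, Polynomial.eval_zero] at h2
  have : 0 < (spread f S t) ^ (2 * q) := pow_pos ht _
  linarith

lemma U_le_logE {P : ι → ℝ[X]} {f : ι → ℝ → ℝ} (he : ∀ i t, f i t = (P i).eval t) (S : Finset ι)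
    (hS : S.Nonempty) (q : ℕ) (hq : 0 < q) (t : ℝ) (ht : 0 < spread f S t) :
    U f S t ≤ (2 * q : ℝ)⁻¹ * Real.log ((E P S q).eval t) ∧
      (2 * q : ℝ)⁻¹ * Real.log ((E P S q).eval t) ≤
        U f S t + (2 * q : ℝ)⁻¹ * Real.log ((S.card : ℝ) ^ 2) := by
  have hq' : (0 : ℝ) < 2 * q := by positivity
  obtain ⟨h1, h2⟩ := pow_le_E he S hS q t
  have h3 : 0 < (spread f S t) ^ (2 * q) := pow_pos ht _
  have hc : (0 : ℝ) < (S.card : ℝ) ^ 2 := by
    have : 0 < S.card := Finset.card_pos.mpr hS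
    positivity
  have h4 := Real.log_le_log h3 h1
  have h5 := Real.log_le_log (lt_of_lt_of_le h3 h1) h2
  rw [Real.log_mul hc.ne' h3.ne'] at h5
  have e2 : Real.log ((spread f S t) ^ (2 * q)) = 2 * q * Real.log (spread f S t) := by
    rw [Real.log_pow]; push_cast; ring
  rw [e2] at h4 h5
  unfold U
  constructor
  · rw [inv_mul_eq_div, le_div_iff₀ hq']; linarith
  · rw [inv_mul_le_iff₀ hq']
    have e : 2 * (q : ℝ) * (Real.log (spread f S t) + (2 * (q : ℝ))⁻¹ * Real.log ((S.card : ℝ) ^ 2))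
        = 2 * q * Real.log (spread f S t) + Real.log ((S.card : ℝ) ^ 2) := by
      field_simp
    rw [e]; linarith

lemma meas_U {D : ℕ} {f : ι → ℝ → ℝ} (hf : PolyFam D f) (S : Finset ι) : Measurable (U f S) :=
  Real.measurable_log.comp (measurable_spread f S (fun i _ => polyFam_measurable hf i))

lemma adm_U (hadm : A_log_adm) {D : ℕ} {f : ι → ℝ → ℝ} (hf : PolyFam D f) (S : Finset ι)
    (hc : 2 ≤ S.card) : Adm (U f S) := by
  have hf' := hf
  obtain ⟨P, hinj, hdeg, he⟩ := hf'
  have hS : S.Nonempty := Finset.card_pos.mp (by omega)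
  have hE := E_ne_zero he hf S hc 1
  set G : ℝ → ℝ := fun t => (2 * (1 : ℕ) : ℝ)⁻¹ * Real.log ((E P S 1).eval t) with hG
  set c : ℝ := (2 * (1 : ℕ) : ℝ)⁻¹ * Real.log ((S.card : ℝ) ^ 2) with hcdef
  have hGadm : Adm G := adm_mul_const (adm_logp hadm hE) _
  have hGabs : Adm (fun t => |G t|) := by
    unfold Adm at hGadm ⊢
    refine hGadm.abs.congr ?_
    filter_upwards with t
    rw [abs_div, abs_of_pos (by positivity : (0:ℝ) < 1 + t ^ 2)]
  refine adm_of_le (adm_add hGabs (adm_const c)) (meas_U hf S) ?_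
  filter_upwards [ae_spread_pos hf S hc] with t ht
  obtain ⟨h1, h2⟩ := U_le_logE he S hS 1 one_pos t ht
  have hc0 : 0 ≤ c := by
    rw [hcdef]
    have : (1 : ℝ) ≤ (S.card : ℝ) ^ 2 := by
      have : (1 : ℝ) ≤ S.card := by exact_mod_cast (by omega : 1 ≤ S.card)
      nlinarith
    have := Real.log_nonneg this
    positivity
  have h3 : G t ≤ |G t| := le_abs_self _
  have h4 : -|G t| ≤ G t := neg_abs_le _
  change U f S t ≤ G t at h1
  change G t ≤ U f S t + c at h2
  rw [abs_le]
  constructor <;> linarith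

theorem b_adm (hadm : A_log_adm) : B_adm := by
  intro ι D f S hf hc
  exact ⟨adm_U hadm hf S hc, meas_U hf S⟩

theorem b_total (hlog : A_log) (hadm : A_log_adm) (htot : A_total) : B_total := by
  intro ι D f S h hf hc hh A hA hAm
  have hpi := Real.pi_pos
  have hph : 0 < Real.pi * h := mul_pos hpi hh
  unfold mu
  rw [div_le_iff₀ hph]
  by_cases hint : IntegrableOn (dens h (U f S)) A
  swap
  · rw [integral_undef hint]; positivity
  have hf' := hf
  obtain ⟨P, hinj, hdeg, he⟩ := hf'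
  have hS : S.Nonempty := Finset.card_pos.mp (by omega)
  have hfin : volume A < ⊤ := hA.measure_lt_top
  have hUadm := adm_U hadm hf S hc
  -- the bound for every q
  have key : ∀ q : ℕ, 0 < q → ∫ t in A, dens h (U f S) t ≤
      D * (Real.pi * h) + (2 * q : ℝ)⁻¹ * Real.log ((S.card : ℝ) ^ 2) * volume.real A := by
    intro q hq
    have hq' : (0 : ℝ) < 2 * q := by positivity
    have hE := E_ne_zero he hf S hc q
    set L : ℝ → ℝ := fun t => Real.log ((E P S q).eval t) with hL
    set c : ℝ := (2 * q : ℝ)⁻¹ * Real.log ((S.card : ℝ) ^ 2) with hcdef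
    have hLadm : Adm L := adm_logp hadm hE
    have hGadm : Adm (fun t => (2 * q : ℝ)⁻¹ * L t) := adm_mul_const hLadm _
    obtain ⟨hi, hv⟩ := dens_logp hadm htot hh hE
    have hnn := dens_logp_nonneg hlog hadm hh hE
    have hdle : ∀ᵐ t, dens h (U f S) t ≤ (2 * q : ℝ)⁻¹ * dens h L t + c := by
      filter_upwards [ae_spread_pos hf S hc] with t ht
      obtain ⟨h1, h2⟩ := U_le_logE he S hS q hq t ht
      have h3 : PP h (U f S) t ≤ PP h (fun t => (2 * q : ℝ)⁻¹ * L t) t := by
        refine PP_mono hh hUadm hGadm ?_ t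
        filter_upwards [ae_spread_pos hf S hc] with x hx
        exact (U_le_logE he S hS q hq x hx).1
      rw [PP_const_mul] at h3
      unfold dens
      change (2 * (q : ℝ))⁻¹ * L t ≤ U f S t + c at h2
      linarith [mul_sub (2 * (q : ℝ))⁻¹ (PP h L t) (L t)]
    have hrhs : IntegrableOn (fun t => (2 * q : ℝ)⁻¹ * dens h L t + c) A := by
      refine Integrable.add (hi.const_mul _).integrableOn ?_
      exact integrableOn_const hfin.ne
    calc ∫ t in A, dens h (U f S) t
        ≤ ∫ t in A, ((2 * q : ℝ)⁻¹ * dens h L t + c) := by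
          refine integral_mono_ae hint hrhs (ae_restrict_of_ae hdle)
      _ = (2 * q : ℝ)⁻¹ * (∫ t in A, dens h L t) + c * volume.real A := by
          rw [integral_add (hi.const_mul _).integrableOn (integrableOn_const hfin.ne),
            integral_const_mul, setIntegral_const, smul_eq_mul]
          ring
      _ ≤ (2 * q : ℝ)⁻¹ * ((2 * q * D : ℕ) * (Real.pi * h)) + c * volume.real A := by
          have h1 : ∫ t in A, dens h L t ≤ ∫ t, dens h L t :=
            setIntegral_le_integral hi hnn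
          have h2 : ((E P S q).natDegree : ℝ) ≤ (2 * q * D : ℕ) := by
            exact_mod_cast E_natDegree P S q D hdeg
          rw [hv] at h1
          have h3 : ∫ t in A, dens h L t ≤ (2 * q * D : ℕ) * (Real.pi * h) :=
            le_trans h1 (mul_le_mul_of_nonneg_right h2 hph.le)
          have h4 := mul_le_mul_of_nonneg_left h3 (inv_nonneg.mpr hq'.le)
          linarith
      _ = D * (Real.pi * h) + c * volume.real A := by
          push_cast
          field_simp
  refine le_of_forall_pos_le_add (fun ε hε => ?_)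
  set B : ℝ := |Real.log ((S.card : ℝ) ^ 2) * volume.real A| + 1 with hB
  have hB0 : 0 < B := by positivity
  obtain ⟨q, hq⟩ := exists_nat_gt (B / ε)
  have hq0 : 0 < q := by
    have : (0 : ℝ) < q := lt_trans (div_pos hB0 hε) hq
    exact_mod_cast this
  have h1 := key q hq0
  have h2 : (2 * q : ℝ)⁻¹ * Real.log ((S.card : ℝ) ^ 2) * volume.real A ≤ ε := by
    rw [mul_assoc]
    have hq' : (0 : ℝ) < 2 * q := by positivity
    rw [inv_mul_le_iff₀ hq']
    have h3 : Real.log ((S.card : ℝ) ^ 2) * volume.real A ≤ B := by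
      have := le_abs_self (Real.log ((S.card : ℝ) ^ 2) * volume.real A)
      linarith
    rw [div_lt_iff₀ hε] at hq
    nlinarith
  linarith

end Pool.Agent.W_be22fd_h24
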