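import Pool.Agent.W_be22fd_h78.Stmts2

/-!
MP_be22fd_co: potentials of polynomials and of spreads of polynomial families on the real line:
admissibility and total mass.
-/

namespace Pool.Agent.W_be22fd_h24

open MeasureTheory Polynomial Pool.Agent.W_be22fd_h78

/-! ### the Poisson kernel against admissible functions -/

lemma one_add_sq_mul_pk_le (h x t : ℝ) (hh : 0 < h) :
    (1 + t ^ 2) * pk h (x - t) ≤ (1 + 2 * x ^ 2 + 2 * h ^ 2) / h * (1 + 2) := by
  have hpi := Real.pi_gt_three
  have hd : 0 < (x - t) ^ 2 + h ^ 2 := by positivity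
  unfold pk
  rw [mul_div_assoc', div_le_iff₀ (by positivity)]
  have h1 : 1 + t ^ 2 ≤ 1 + 2 * x ^ 2 + 2 * ((x - t) ^ 2 + h ^ 2) := by nlinarith [sq_nonneg (x + x - t)]
  have h2 : (1 + 2 * x ^ 2) * h ^ 2 ≤ (1 + 2 * x ^ 2) * ((x - t) ^ 2 + h ^ 2) := by
    apply mul_le_mul_of_nonneg_left _ (by positivity); nlinarith [sq_nonneg (x - t)]
  have h3 : (1 + t ^ 2) * h * h ≤ (1 + 2 * x ^ 2 + 2 * h ^ 2) * ((x - t) ^ 2 + h ^ 2) := by
    nlinarith [mul_le_mul_of_nonneg_right h1 (sq_nonneg h)]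
  have h4 : (1 + 2 * x ^ 2 + 2 * h ^ 2) * ((x - t) ^ 2 + h ^ 2) ≤
      (1 + 2 * x ^ 2 + 2 * h ^ 2) * (1 + 2) * (Real.pi * ((x - t) ^ 2 + h ^ 2)) := by
    have : 0 ≤ (1 + 2 * x ^ 2 + 2 * h ^ 2) * ((x - t) ^ 2 + h ^ 2) := by positivity
    nlinarith [mul_le_mul_of_nonneg_left hpi.le this]
  have e : (1 + 2 * x ^ 2 + 2 * h ^ 2) / h * (1 + 2) * (Real.pi * ((x - t) ^ 2 + h ^ 2)) =
      (1 + 2 * x ^ 2 + 2 * h ^ 2) * (1 + 2) * (Real.pi * ((x - t) ^ 2 + h ^ 2)) / h := by ring
  rw [e, le_div_iff₀ hh]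
  linarith

lemma pk_nonneg (h s : ℝ) (hh : 0 < h) : 0 ≤ pk h s := by
  unfold pk; positivity

lemma measurable_pk (h x : ℝ) : Measurable (fun t => pk h (x - t)) := by
  unfold pk; fun_prop

/-- admissible functions are integrable against Poisson kernels -/
lemma int_pk (f : ℝ → ℝ) (hf : Adm f) (h x : ℝ) (hh : 0 < h) :
    Integrable (fun t => pk h (x - t) * f t) := by
  have key : Integrable (fun t => ((1 + t ^ 2) * pk h (x - t)) * (f t / (1 + t ^ 2))) := by
    refine Integrable.bdd_mul (c := (1 + 2 * x ^ 2 + 2 * h ^ 2) / h * (1 + 2)) hf ?_ ?_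
    · exact (((measurable_const.add (measurable_id.pow_const 2)).mul
        (measurable_pk h x)).aestronglyMeasurable)
    · filter_upwards with t
      rw [Real.norm_eq_abs, abs_of_nonneg (mul_nonneg (by positivity) (pk_nonneg h _ hh))]
      exact one_add_sq_mul_pk_le h x t hh
  refine key.congr ?_
  filter_upwards with t
  have : (1 + t ^ 2 : ℝ) ≠ 0 := by positivity
  field_simp

lemma integral_pk (h x : ℝ) (hh : 0 < h) : ∫ t, pk h (x - t) = 1 := by
  rw [integral_sub_left_eq_self (fun s => pk h s) volume x]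
  have e : (fun s : ℝ => pk h s) = fun s => (Real.pi * h)⁻¹ * (1 + (s / h) ^ 2)⁻¹ := by
    funext s
    unfold pk
    have : h ^ 2 + s ^ 2 ≠ 0 := by positivity
    have hp := Real.pi_ne_zero
    field_simp
    rw [add_comm]
  rw [e, integral_const_mul]
  rw [Measure.integral_comp_div (fun s : ℝ => (1 + s ^ 2)⁻¹) h, integral_univ_inv_one_add_sq,
    abs_of_pos hh, smul_eq_mul]
  have hp := Real.pi_ne_zero
  field_simp

lemma adm_const (c : ℝ) : Adm (fun _ => c) := by
  unfold Adm
  have := (integrable_inv_one_add_sq).const_mul c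
  refine this.congr ?_
  filter_upwards with t
  rw [div_eq_mul_inv]

lemma adm_add {f g : ℝ → ℝ} (hf : Adm f) (hg : Adm g) : Adm (fun t => f t + g t) := by
  unfold Adm at *
  refine (hf.add hg).congr ?_
  filter_upwards with t
  simp [add_div]

lemma adm_mul_const {f : ℝ → ℝ} (hf : Adm f) (c : ℝ) : Adm (fun t => c * f t) := by
  unfold Adm at *
  refine (hf.const_mul c).congr ?_
  filter_upwards with t
  ring

lemma adm_congr {f g : ℝ → ℝ} (hf : Adm f) (h : ∀ᵐ t, f t = g t) : Adm g := by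
  unfold Adm at *
  refine hf.congr ?_
  filter_upwards [h] with t ht
  rw [ht]

lemma adm_of_le {f g : ℝ → ℝ} (hg : Adm g) (hm : Measurable f) (h : ∀ᵐ t, |f t| ≤ g t) :
    Adm f := by
  unfold Adm at *
  refine hg.mono' ?_ ?_
  · exact (hm.div (measurable_const.add (measurable_id.pow_const 2))).aestronglyMeasurable
  · filter_upwards [h] with t ht
    rw [Real.norm_eq_abs, abs_div, abs_of_pos (by positivity : (0:ℝ) < 1 + t ^ 2)]
    gcongr

lemma PP_congr {f g : ℝ → ℝ} (h : ℝ) (hfg : ∀ᵐ t, f t = g t) (x : ℝ) : PP h f x = PP h g x := by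
  unfold PP
  refine integral_congr_ae ?_
  filter_upwards [hfg] with t ht
  rw [ht]

lemma PP_mono {f g : ℝ → ℝ} {h : ℝ} (hh : 0 < h) (hf : Adm f) (hg : Adm g)
    (hfg : ∀ᵐ t, f t ≤ g t) (x : ℝ) : PP h f x ≤ PP h g x := by
  unfold PP
  refine integral_mono_ae (int_pk f hf h x hh) (int_pk g hg h x hh) ?_
  filter_upwards [hfg] with t ht
  exact mul_le_mul_of_nonneg_left ht (pk_nonneg h _ hh)

lemma PP_add {f g : ℝ → ℝ} {h : ℝ} (hh : 0 < h) (hf : Adm f) (hg : Adm g) (x : ℝ) :
    PP h (fun t => f t + g t) x = PP h f x + PP h g x := by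
  unfold PP
  rw [← integral_add (int_pk f hf h x hh) (int_pk g hg h x hh)]
  refine integral_congr_ae ?_
  filter_upwards with t
  ring

lemma PP_const_mul (f : ℝ → ℝ) (h c : ℝ) (x : ℝ) :
    PP h (fun t => c * f t) x = c * PP h f x := by
  unfold PP
  rw [← integral_const_mul]
  refine integral_congr_ae ?_
  filter_upwards with t
  ring

lemma PP_const {h : ℝ} (hh : 0 < h) (c x : ℝ) : PP h (fun _ => c) x = c := by
  unfold PP
  rw [integral_mul_const, integral_pk h x hh, one_mul]

/-! ### sums of potentials of points -/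

/-- potential of a multiset of points of the plane -/
noncomputable def F (s : Multiset ℂ) (t : ℝ) : ℝ := (s.map (fun z => lg z.re z.im t)).sum

lemma F_zero : F 0 = fun _ => 0 := by funext t; simp [F]

lemma F_cons (z : ℂ) (s : Multiset ℂ) : F (z ::ₘ s) = fun t => lg z.re z.im t + F s t := by
  funext t; simp [F]

lemma adm_F (hadm : A_log_adm) (s : Multiset ℂ) : Adm (F s) := by
  induction s using Multiset.induction_on with
  | empty => rw [F_zero]; exact adm_const 0
  | cons z s ih => rw [F_cons]; exact adm_add (hadm _ _) ih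

lemma dens_add {f g : ℝ → ℝ} {h : ℝ} (hh : 0 < h) (hf : Adm f) (hg : Adm g) :
    dens h (fun t => f t + g t) = fun t => dens h f t + dens h g t := by
  funext t
  unfold dens
  rw [PP_add hh hf hg]; ring

lemma dens_const {h : ℝ} (hh : 0 < h) (c : ℝ) : dens h (fun _ => c) = fun _ => 0 := by
  funext t
  unfold dens
  rw [PP_const hh]; ring

lemma dens_F (hadm : A_log_adm) (htot : A_total) {h : ℝ} (hh : 0 < h) (s : Multiset ℂ) :
    Integrable (dens h (F s)) ∧ ∫ t, dens h (F s) t = s.card * (Real.pi * h) := by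
  induction s using Multiset.induction_on with
  | empty =>
    rw [F_zero, dens_const hh]
    constructor
    · exact integrable_zero _ _ _
    · simp
  | cons z s ih =>
    rw [F_cons, dens_add hh (hadm _ _) (adm_F hadm s)]
    obtain ⟨h1, h2⟩ := htot h z.re z.im hh
    refine ⟨h1.add ih.1, ?_⟩
    rw [integral_add h1 ih.1, h2, ih.2, Multiset.card_cons]
    push_cast; ring

lemma dens_lg_nonneg (hlog : A_log) {h : ℝ} (hh : 0 < h) (a b : ℝ) :
    ∀ᵐ t, 0 ≤ dens h (lg a b) t := by
  have hne : ∀ᵐ t : ℝ, t ≠ a := by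
    rw [ae_iff]; simp
  filter_upwards [hne] with t ht
  unfold dens
  rw [hlog h a b t hh]
  unfold lg
  have h1 : 0 < (t - a) ^ 2 + b ^ 2 := by
    have : 0 < (t - a) ^ 2 := by
      have := sub_ne_zero.mpr ht
      positivity
    positivity
  have h2 : (t - a) ^ 2 + b ^ 2 ≤ (t - a) ^ 2 + (h + |b|) ^ 2 := by
    have : b ^ 2 ≤ (h + |b|) ^ 2 := by
      rw [← sq_abs b]
      apply pow_le_pow_left₀ (abs_nonneg b); linarith
    linarith
  have := Real.log_le_log h1 h2
  linarith

lemma dens_F_nonneg (hlog : A_log) (hadm : A_log_adm) {h : ℝ} (hh : 0 < h) (s : Multiset ℂ) :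
    ∀ᵐ t, 0 ≤ dens h (F s) t := by
  induction s using Multiset.induction_on with
  | empty =>
    rw [F_zero, dens_const hh]
    filter_upwards with t
    exact le_refl _
  | cons z s ih =>
    rw [F_cons, dens_add hh (hadm _ _) (adm_F hadm s)]
    filter_upwards [ih, dens_lg_nonneg hlog hh z.re z.im] with t h1 h2
    linarith

/-! ### polynomials -/

lemma ae_eval_ne {p : ℝ[X]} (hp : p ≠ 0) : ∀ᵐ t : ℝ, p.eval t ≠ 0 := by
  have : {t : ℝ | ¬ p.eval t ≠ 0} ⊆ (p.roots.toFinset : Set ℝ) := by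
    intro t ht
    have ht' : p.eval t = 0 := by simpa using ht
    simp [hp, ht']
  exact measure_mono_null this ((Finset.finite_toSet _).measure_zero volume)

lemma log_norm_sub (t : ℝ) (z : ℂ) : Real.log ‖(t : ℂ) - z‖ = lg z.re z.im t := by
  unfold lg
  have e : (t - z.re) ^ 2 + z.im ^ 2 = ‖(t : ℂ) - z‖ ^ 2 := by
    rw [Complex.sq_norm, Complex.normSq_apply]
    simp; ring
  rw [e, Real.log_pow]; push_cast; ring

lemma log_eval {p : ℝ[X]} {t : ℝ} (ht : p.eval t ≠ 0) :
    Real.log (p.eval t) = Real.log p.leadingCoeff + F (p.map (algebraMap ℝ ℂ)).roots t := by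
  have hp : p ≠ 0 := by rintro rfl; simp at ht
  set q := p.map (algebraMap ℝ ℂ) with hq
  have hsp : q.Splits := IsAlgClosed.splits q
  have hev : q.eval (t : ℂ) = ((p.eval t : ℝ) : ℂ) := by
    rw [hq, Polynomial.eval_map_algebraMap]
    have := Polynomial.aeval_algebraMap_apply ℂ t p
    simpa using this
  have h1 := hsp.eval_eq_prod_roots (t : ℂ)
  have hne : ∀ z ∈ q.roots, (t : ℂ) - z ≠ 0 := by
    intro z hz h0
    have hz' : z = (t : ℂ) := (sub_eq_zero.mp h0).symm
    have : q.eval z = 0 := (Polynomial.mem_roots'.mp hz).2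
    rw [hz', hev] at this
    exact ht (by exact_mod_cast this)
  have h2 : Real.log ‖(q.roots.map (fun z => (t : ℂ) - z)).prod‖ = F q.roots t := by
    have : ∀ s : Multiset ℂ, (∀ z ∈ s, (t : ℂ) - z ≠ 0) →
        Real.log ‖(s.map (fun z => (t : ℂ) - z)).prod‖ = F s t := by
      intro s
      induction s using Multiset.induction_on with
      | empty => intro _; simp [F]
      | cons z s ih =>
        intro hs
        have hz := hs z (Multiset.mem_cons_self z s)
        have hs' : ∀ w ∈ s, (t : ℂ) - w ≠ 0 := fun w hw => hs w (Multiset.mem_cons_of_mem hw)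
        rw [Multiset.map_cons, Multiset.prod_cons, norm_mul, Real.log_mul, ih hs', F_cons,
          log_norm_sub]
        · simpa using hz
        · rw [norm_ne_zero_iff]
          intro h0
          rw [Multiset.prod_eq_zero_iff] at h0
          simp only [Multiset.mem_map] at h0
          obtain ⟨w, hw, hw0⟩ := h0
          exact hs' w hw hw0
    exact this _ hne
  have hlc : q.leadingCoeff = ((p.leadingCoeff : ℝ) : ℂ) := by
    rw [hq, Polynomial.leadingCoeff_map]; simp
  have hlc0 : p.leadingCoeff ≠ 0 := Polynomial.leadingCoeff_ne_zero.mpr hp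
  rw [← Real.log_abs (p.eval t), ← Real.norm_eq_abs, ← Complex.norm_real (p.eval t), ← hev, h1,
    norm_mul, Real.log_mul, h2, hlc, Complex.norm_real, Real.norm_eq_abs, Real.log_abs]
  · rw [hlc]; simpa using hlc0
  · rw [norm_ne_zero_iff]
    intro h0
    rw [Multiset.prod_eq_zero_iff] at h0
    simp only [Multiset.mem_map] at h0
    obtain ⟨w, hw, hw0⟩ := h0
    exact hne w hw hw0

/-- logarithm of a polynomial -/
lemma logp_ae {p : ℝ[X]} (hp : p ≠ 0) : ∀ᵐ t : ℝ,
    Real.log p.leadingCoeff + F (p.map (algebraMap ℝ ℂ)).roots t = Real.log (p.eval t) := by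
  filter_upwards [ae_eval_ne hp] with t ht
  exact (log_eval ht).symm

lemma adm_logp (hadm : A_log_adm) {p : ℝ[X]} (hp : p ≠ 0) :
    Adm (fun t => Real.log (p.eval t)) :=
  adm_congr (adm_add (adm_const _) (adm_F hadm _)) (logp_ae hp)

lemma dens_congr {f g : ℝ → ℝ} (h : ℝ) (hfg : ∀ᵐ t, f t = g t) :
    ∀ᵐ t, dens h f t = dens h g t := by
  filter_upwards [hfg] with t ht
  unfold dens
  rw [PP_congr h hfg, ht]

lemma dens_logp_ae (hadm : A_log_adm) {h : ℝ} (hh : 0 < h) {p : ℝ[X]} (hp : p ≠ 0) :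
    ∀ᵐ t, dens h (F (p.map (algebraMap ℝ ℂ)).roots) t = dens h (fun t => Real.log (p.eval t)) t := by
  have h1 := dens_congr h (logp_ae hp)
  filter_upwards [h1] with t ht
  rw [← ht, dens_add hh (adm_const _) (adm_F hadm _), dens_const hh]
  ring

lemma dens_logp (hadm : A_log_adm) (htot : A_total) {h : ℝ} (hh : 0 < h) {p : ℝ[X]}
    (hp : p ≠ 0) : Integrable (dens h (fun t => Real.log (p.eval t))) ∧
      ∫ t, dens h (fun t => Real.log (p.eval t)) t = p.natDegree * (Real.pi * h) := by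
  obtain ⟨h1, h2⟩ := dens_F hadm htot hh (p.map (algebraMap ℝ ℂ)).roots
  have h3 := dens_logp_ae hadm hh hp
  refine ⟨h1.congr h3, ?_⟩
  rw [← integral_congr_ae h3, h2]
  congr 2
  have hsp : (p.map (algebraMap ℝ ℂ)).Splits := IsAlgClosed.splits _
  rw [← hsp.natDegree_eq_card_roots, Polynomial.natDegree_map]

lemma dens_logp_nonneg (hlog : A_log) (hadm : A_log_adm) {h : ℝ} (hh : 0 < h) {p : ℝ[X]}
    (hp : p ≠ 0) : ∀ᵐ t, 0 ≤ dens h (fun t => Real.log (p.eval t)) t := by
  filter_upwards [dens_F_nonneg hlog hadm hh (p.map (algebraMap ℝ ℂ)).roots,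
    dens_logp_ae hadm hh hp] with t h1 h2
  rw [← h2]; exact h1

end Pool.Agent.W_be22fd_h24
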