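import Pool.Agent.W_be22fd_h24.Poly
import Pool.Agent.W_MP_be22fd_co_rk.Defs
import Pool.Agent.W_be22fd_h77.ALog
import Pool.Agent.W_be22fd_h77.ATotal

/-!
MP_be22fd_co: the total mass of `log max |P|`, `P ∈ L`, is at most the degree
(real line calculus `Ph`, `LG` of W_MP_be22fd_co_rk).
-/

namespace Pool.Agent.W_be22fd_h24

open MeasureTheory Polynomial Pool.Agent.W_be22fd_h78
open Pool.Agent.Be22R (Ph tau integral_kap mx lmx LG ell lg_le ell_integrable le_mx exists_mx mx_le)
open scoped Real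

/-- the two forms of the Poisson convolution agree -/
theorem Ph_eq_PP (h : ℝ) (hh : 0 < h) (u : ℝ → ℝ) (x : ℝ) : Ph h u x = PP h u x := by
  rw [Pool.Agent.Be22.Ker.PP_eq hh]
  unfold Ph
  rw [integral_kap]
  congr 1
  have hp : Function.Periodic (fun θ : ℝ => u (x + h * Real.tan (θ / 2))) (2 * π) := by
    intro θ
    have e : (θ + 2 * π) / 2 = θ / 2 + π := by ring
    simp only [e, Real.tan_periodic (θ / 2)]
  have := hp.intervalIntegral_add_eq 0 (-π)
  have e1 : (0 : ℝ) + 2 * π = 2 * π := by ring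
  have e2 : -π + 2 * π = π := by ring
  rw [e1, e2] at this
  have hle : -π ≤ π := by linarith [Real.pi_pos]
  rw [intervalIntegral.integral_of_le hle, integral_Ioc_eq_integral_Ioo] at this
  exact this

theorem a_log_adm : A_log_adm := by
  intro a b
  unfold Adm
  set z : ℂ := a + b * Complex.I with hz
  -- the three dominating functions
  have h1 : Integrable (fun t : ℝ => (1 + ‖t‖) ^ (-(3 / 2 : ℝ))) :=
    integrable_one_add_norm (by simp; norm_num)
  have h2 : Integrable (fun t : ℝ => ell (t - a)) := ell_integrable.comp_sub_right a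
  have h3 : Integrable (fun t : ℝ => (1 + t ^ 2)⁻¹) := integrable_inv_one_add_sq
  set c : ℝ := Real.log (1 + ‖z‖) + |Real.log z.im| with hc
  refine ((h1.const_mul 4).add (h2.add (h3.const_mul c))).mono' ?_ ?_
  · have : Measurable (fun t : ℝ => lg a b t / (1 + t ^ 2)) := by
      unfold lg; fun_prop
    exact this.aestronglyMeasurable
  · filter_upwards with t
    have hk := lg_le z 0 t
    have e0 : Pool.Agent.Be22R.lg z (0 + t) = lg a b t := by
      rw [Pool.Agent.Be22.Ker.lg_eq_log_norm, zero_add]; rfl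
    have hre : z.re = a := by simp [hz]
    rw [e0, hre, abs_zero, add_zero, zero_add] at hk
    have hpos : (0 : ℝ) < 1 + t ^ 2 := by positivity
    rw [Real.norm_eq_abs, abs_div, abs_of_pos hpos, div_le_iff₀ hpos]
    simp only [Pi.add_apply]
    have hl : Real.log (1 + |t|) ≤ 4 * (1 + ‖t‖) ^ (-(3 / 2 : ℝ)) * (1 + t ^ 2) := by
      have hs : (0 : ℝ) < 1 + |t| := by positivity
      have hlog : Real.log (1 + |t|) ≤ (1 + |t|) ^ (1 / 2 : ℝ) / (1 / 2) :=
        Real.log_le_rpow_div hs.le (by norm_num)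
      have hsq : (1 + |t|) ^ 2 ≤ 2 * (1 + t ^ 2) := by
        have := sq_abs t
        nlinarith [sq_nonneg (|t| - 1)]
      have hr : (1 + |t|) ^ (1 / 2 : ℝ) = (1 + |t|) ^ (-(3 / 2 : ℝ)) * (1 + |t|) ^ 2 := by
        rw [← Real.rpow_natCast, ← Real.rpow_add hs]
        norm_num
      have hnn : 0 ≤ (1 + |t|) ^ (-(3 / 2 : ℝ)) := Real.rpow_nonneg hs.le _
      rw [Real.norm_eq_abs]
      calc Real.log (1 + |t|) ≤ (1 + |t|) ^ (1 / 2 : ℝ) / (1 / 2) := hlog
        _ = 2 * ((1 + |t|) ^ (-(3 / 2 : ℝ)) * (1 + |t|) ^ 2) := by rw [hr]; ring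
        _ ≤ 2 * ((1 + |t|) ^ (-(3 / 2 : ℝ)) * (2 * (1 + t ^ 2))) := by gcongr
        _ = _ := by ring
    have he : ell (t - a) ≤ ell (t - a) * (1 + t ^ 2) := by
      have := Pool.Agent.Be22R.ell_nonneg (t - a)
      nlinarith [sq_nonneg t]
    have hcc : c = c * (1 + t ^ 2)⁻¹ * (1 + t ^ 2) := by field_simp
    have : Real.log (1 + ‖z‖) + |Real.log z.im| = c := rfl
    nlinarith

lemma measurable_mx (L : Finset ℝ[X]) : Measurable (mx L) := by
  unfold mx
  refine measurable_coe_nnreal_real.comp ?_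
  have h1 : ∀ P ∈ L, Measurable (fun x : ℝ => ‖P.eval x‖₊) := fun P _ =>
    (P.continuous.nnnorm).measurable
  have e : (fun x : ℝ => L.sup fun P => ‖P.eval x‖₊) = L.sup (fun P => fun x : ℝ => ‖P.eval x‖₊) := by
    funext x; rw [Finset.sup_apply]
  rw [e]
  exact Finset.sup_induction measurable_const (fun _ h _ h' => h.sup h') h1

/-- the sum of the `2q`-th powers -/
noncomputable def EL (L : Finset ℝ[X]) (q : ℕ) : ℝ[X] := ∑ P ∈ L, P ^ (2 * q)

lemma EL_natDegree (L : Finset ℝ[X]) (q d : ℕ) (hd : ∀ P ∈ L, P.natDegree ≤ d) :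
    (EL L q).natDegree ≤ 2 * q * d := by
  unfold EL
  refine Polynomial.natDegree_sum_le_of_forall_le _ _ (fun P hP => ?_)
  exact le_trans Polynomial.natDegree_pow_le (Nat.mul_le_mul_left _ (hd P hP))

lemma pow_le_EL (L : Finset ℝ[X]) (hL : L.Nonempty) (q : ℕ) (t : ℝ) :
    (mx L t) ^ (2 * q) ≤ (EL L q).eval t ∧
      (EL L q).eval t ≤ (L.card : ℝ) * (mx L t) ^ (2 * q) := by
  have e : (EL L q).eval t = ∑ P ∈ L, (P.eval t) ^ (2 * q) := by
    unfold EL; simp [Polynomial.eval_finsetSum]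
  rw [e]
  constructor
  · obtain ⟨P, hP, hm⟩ := exists_mx hL t
    rw [hm, Even.pow_abs (even_two_mul q)]
    exact Finset.single_le_sum (f := fun P : ℝ[X] => (P.eval t) ^ (2 * q))
      (fun c _ => by rw [pow_mul]; positivity) hP
  · rw [← nsmul_eq_mul]
    refine Finset.sum_le_card_nsmul _ _ _ (fun P hP => ?_)
    rw [← Even.pow_abs (even_two_mul q)]
    exact pow_le_pow_left₀ (abs_nonneg _) (le_mx hP t) _

lemma lmx_le_log (L : Finset ℝ[X]) (hL : L.Nonempty) (q : ℕ) (hq : 0 < q) (t : ℝ)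
    (ht : 0 < mx L t) :
    lmx L t ≤ (2 * q : ℝ)⁻¹ * Real.log ((EL L q).eval t) ∧
      (2 * q : ℝ)⁻¹ * Real.log ((EL L q).eval t) ≤
        lmx L t + (2 * q : ℝ)⁻¹ * Real.log (L.card : ℝ) := by
  have hq' : (0 : ℝ) < 2 * q := by positivity
  obtain ⟨h1, h2⟩ := pow_le_EL L hL q t
  have h3 : 0 < (mx L t) ^ (2 * q) := pow_pos ht _
  have hc : (0 : ℝ) < (L.card : ℝ) := by exact_mod_cast Finset.card_pos.mpr hL
  have h4 := Real.log_le_log h3 h1
  have h5 := Real.log_le_log (lt_of_lt_of_le h3 h1) h2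
  rw [Real.log_mul hc.ne' h3.ne'] at h5
  have e2 : Real.log ((mx L t) ^ (2 * q)) = 2 * q * Real.log (mx L t) := by
    rw [Real.log_pow]; push_cast; ring
  rw [e2] at h4 h5
  unfold lmx
  constructor
  · rw [inv_mul_eq_div, le_div_iff₀ hq']; linarith
  · rw [inv_mul_le_iff₀ hq']
    have e : 2 * (q : ℝ) * (Real.log (mx L t) + (2 * (q : ℝ))⁻¹ * Real.log (L.card : ℝ))
        = 2 * q * Real.log (mx L t) + Real.log (L.card : ℝ) := by
      field_simp
    rw [e]; linarith

lemma ae_mx_pos {L : Finset ℝ[X]} {P : ℝ[X]} (hP : P ∈ L) (h0 : P ≠ 0) :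
    ∀ᵐ t, 0 < mx L t := by
  filter_upwards [ae_eval_ne h0] with t ht
  exact lt_of_lt_of_le (abs_pos.mpr ht) (le_mx hP t)

lemma EL_ne_zero {L : Finset ℝ[X]} {P : ℝ[X]} (hP : P ∈ L) (h0 : P ≠ 0) (q : ℕ) :
    EL L q ≠ 0 := by
  intro h
  obtain ⟨t, ht⟩ := (ae_mx_pos hP h0).exists
  have h2 := (pow_le_EL L ⟨P, hP⟩ q t).1
  rw [h, Polynomial.eval_zero] at h2
  have : 0 < (mx L t) ^ (2 * q) := pow_pos ht _
  linarith

lemma adm_lmx {L : Finset ℝ[X]} {P : ℝ[X]} (hP : P ∈ L) (h0 : P ≠ 0) : Adm (lmx L) := by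
  have hL : L.Nonempty := ⟨P, hP⟩
  have hE := EL_ne_zero hP h0 1
  set G : ℝ → ℝ := fun t => (2 * (1 : ℕ) : ℝ)⁻¹ * Real.log ((EL L 1).eval t) with hG
  set c : ℝ := (2 * (1 : ℕ) : ℝ)⁻¹ * Real.log (L.card : ℝ) with hcdef
  have hGadm : Adm G := adm_mul_const (adm_logp a_log_adm hE) _
  have hGabs : Adm (fun t => |G t|) := by
    unfold Adm at hGadm ⊢
    refine hGadm.abs.congr ?_
    filter_upwards with t
    rw [abs_div, abs_of_pos (by positivity : (0:ℝ) < 1 + t ^ 2)]
  refine adm_of_le (adm_add hGabs (adm_const c)) (Real.measurable_log.comp (measurable_mx L)) ?_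
  filter_upwards [ae_mx_pos hP h0] with t ht
  obtain ⟨h1, h2⟩ := lmx_le_log L hL 1 one_pos t ht
  have hc0 : 0 ≤ c := by
    rw [hcdef]
    have : (1 : ℝ) ≤ (L.card : ℝ) := by exact_mod_cast Finset.card_pos.mpr hL
    have := Real.log_nonneg this
    positivity
  have h3 : G t ≤ |G t| := le_abs_self _
  have h4 : -|G t| ≤ G t := neg_abs_le _
  change lmx L t ≤ G t at h1
  change G t ≤ lmx L t + c at h2
  change |lmx L t| ≤ |G t| + c
  rw [abs_le]
  constructor <;> linarith

/-- the total mass is at most the degree -/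
theorem total (L : Finset ℝ[X]) (d : ℕ) (hd : ∀ P ∈ L, P.natDegree ≤ d) {h : ℝ} (hh : 0 < h)
    {A : Set ℝ} {B : ℝ} (_hAm : MeasurableSet A) (hAB : A ⊆ Set.Icc (-B) B) :
    ∫ x in A, (Ph h (lmx L) x - lmx L x) ≤ π * h * d := by
  have hpi := Real.pi_pos
  have hph : 0 < Real.pi * h := mul_pos hpi hh
  have e0 : ∀ x, Ph h (lmx L) x - lmx L x = dens h (lmx L) x := by
    intro x; rw [Ph_eq_PP h hh]; rfl
  simp only [e0]
  by_cases hz : ∀ P ∈ L, P = 0
  · have : lmx L = fun _ => 0 := by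
      funext x
      have h1 : mx L x ≤ 0 := mx_le le_rfl (fun P hP => by rw [hz P hP]; simp)
      have h2 : mx L x = 0 := le_antisymm h1 (Pool.Agent.Be22R.mx_nonneg L x)
      unfold lmx; rw [h2, Real.log_zero]
    rw [this, dens_const hh]
    simp only [integral_zero]
    positivity
  push Not at hz
  obtain ⟨P, hP, h0⟩ := hz
  have hL : L.Nonempty := ⟨P, hP⟩
  by_cases hint : IntegrableOn (dens h (lmx L)) A
  swap
  · rw [integral_undef hint]; positivity
  have hfin : volume A < ⊤ := lt_of_le_of_lt (measure_mono hAB) measure_Icc_lt_top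
  have hUadm := adm_lmx hP h0
  have key : ∀ q : ℕ, 0 < q → ∫ t in A, dens h (lmx L) t ≤
      d * (Real.pi * h) + (2 * q : ℝ)⁻¹ * Real.log (L.card : ℝ) * volume.real A := by
    intro q hq
    have hq' : (0 : ℝ) < 2 * q := by positivity
    have hE := EL_ne_zero hP h0 q
    set L' : ℝ → ℝ := fun t => Real.log ((EL L q).eval t) with hL'
    set c : ℝ := (2 * q : ℝ)⁻¹ * Real.log (L.card : ℝ) with hcdef
    have hLadm : Adm L' := adm_logp a_log_adm hE
    have hGadm : Adm (fun t => (2 * q : ℝ)⁻¹ * L' t) := adm_mul_const hLadm _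
    obtain ⟨hi, hv⟩ := dens_logp a_log_adm Pool.Agent.Be22.Ker.A_total_holds hh hE
    have hnn := dens_logp_nonneg Pool.Agent.Be22.Ker.A_log_holds a_log_adm hh hE
    have hdle : ∀ᵐ t, dens h (lmx L) t ≤ (2 * q : ℝ)⁻¹ * dens h L' t + c := by
      filter_upwards [ae_mx_pos hP h0] with t ht
      obtain ⟨h1, h2⟩ := lmx_le_log L hL q hq t ht
      have h3 : PP h (lmx L) t ≤ PP h (fun t => (2 * q : ℝ)⁻¹ * L' t) t := by
        refine PP_mono hh hUadm hGadm ?_ t
        filter_upwards [ae_mx_pos hP h0] with x hx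
        exact (lmx_le_log L hL q hq x hx).1
      rw [PP_const_mul] at h3
      unfold dens
      change (2 * (q : ℝ))⁻¹ * L' t ≤ lmx L t + c at h2
      linarith [mul_sub (2 * (q : ℝ))⁻¹ (PP h L' t) (L' t)]
    have hrhs : IntegrableOn (fun t => (2 * q : ℝ)⁻¹ * dens h L' t + c) A := by
      refine Integrable.add (hi.const_mul _).integrableOn ?_
      exact integrableOn_const hfin.ne
    calc ∫ t in A, dens h (lmx L) t
        ≤ ∫ t in A, ((2 * q : ℝ)⁻¹ * dens h L' t + c) := by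
          refine integral_mono_ae hint hrhs (ae_restrict_of_ae hdle)
      _ = (2 * q : ℝ)⁻¹ * (∫ t in A, dens h L' t) + c * volume.real A := by
          rw [integral_add (hi.const_mul _).integrableOn (integrableOn_const hfin.ne),
            integral_const_mul, setIntegral_const, smul_eq_mul]
          ring
      _ ≤ (2 * q : ℝ)⁻¹ * ((2 * q * d : ℕ) * (Real.pi * h)) + c * volume.real A := by
          have h1 : ∫ t in A, dens h L' t ≤ ∫ t, dens h L' t :=
            setIntegral_le_integral hi hnn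
          have h2 : ((EL L q).natDegree : ℝ) ≤ (2 * q * d : ℕ) := by
            exact_mod_cast EL_natDegree L q d hd
          rw [hv] at h1
          have h3 : ∫ t in A, dens h L' t ≤ (2 * q * d : ℕ) * (Real.pi * h) :=
            le_trans h1 (mul_le_mul_of_nonneg_right h2 hph.le)
          have h4 := mul_le_mul_of_nonneg_left h3 (inv_nonneg.mpr hq'.le)
          linarith
      _ = d * (Real.pi * h) + c * volume.real A := by
          push_cast
          field_simp
  have e1 : π * h * d = d * (Real.pi * h) := by ring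
  rw [e1]
  refine le_of_forall_pos_le_add (fun ε hε => ?_)
  set Q : ℝ := |Real.log (L.card : ℝ) * volume.real A| + 1 with hQ
  have hQ0 : 0 < Q := by positivity
  obtain ⟨q, hq⟩ := exists_nat_gt (Q / ε)
  have hq0 : 0 < q := by
    have : (0 : ℝ) < q := lt_trans (div_pos hQ0 hε) hq
    exact_mod_cast this
  have h1 := key q hq0
  have h2 : (2 * q : ℝ)⁻¹ * Real.log (L.card : ℝ) * volume.real A ≤ ε := by
    rw [mul_assoc]
    have hq' : (0 : ℝ) < 2 * q := by positivity
    rw [inv_mul_le_iff₀ hq']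
    have h3 : Real.log (L.card : ℝ) * volume.real A ≤ Q := by
      have := le_abs_self (Real.log (L.card : ℝ) * volume.real A)
      linarith
    rw [div_lt_iff₀ hε] at hq
    nlinarith
  linarith

end Pool.Agent.W_be22fd_h24
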