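import Pool.Agent.W_be22fd_h77.Items
import Pool.Agent.W_be22fd_h76sel.Use
import Pool.Agent.W_be22fd_h33.TentFam

/-!
# The Z item: tent family and children give a local test
-/

open Polynomial Real MeasureTheory

namespace Pool.Agent.Be22.Ker

open Pool.Agent.W_be22fd_h78 (Dom)
open Pool.Agent.W_be22fd_h76sel (Item)
open Pool.Agent.W_be22fd_h33 (tphi tent_fam tphi_lower tphi_zero tphi_avg)

theorem tent_num {B : ℝ} (hB : 11 ≤ B) : exp (B - 1 / 4) + 2 ≤ exp B := by
  have h1 : exp (B - 1 / 4) = exp B * exp (-(1 / 4)) := by rw [← exp_add]; ring_nf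
  have h2 : exp (-(1 / 4 : ℝ)) ≤ 4 / 5 := by
    rw [exp_neg, inv_le_comm₀ (exp_pos _) (by norm_num)]
    have := add_one_le_exp (1 / 4 : ℝ)
    linarith
  have h3 : (12 : ℝ) ≤ exp B := by linarith [add_one_le_exp B]
  rw [h1]
  nlinarith

/-- **Z item.** -/
theorem item_Z {S : Set ℝ[X]} {L : List ℂ[X]} (hnt : S.Nontrivial) (hL : Diffs S L)
    {t : ℕ → ℝ} {K : ℕ} {E g : ℝ} (hg : 0 ≤ g) (hE : E = 1 ∨ (E = 2 ∧ 1000 ≤ g))
    (ht : ∀ i, i < K → t i < t (i + 1))
    (hch : ∀ k, 1 ≤ k → k < K → ∀ x, t k < x → x < t (k + 1) →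
      ∃ S' ⊆ S, ∃ a b, F S' g a b ∧ t (k - 1) ≤ a ∧ a ≤ b ∧ b ≤ x ∧ Dom E S S' x)
    {k : ℕ} {p s τ B : ℝ} (hv : (Item.Z k p s τ B).Valid t K) :
    LocalTest L (Item.Z k p s τ B).supp (g / 2000) := by
  have hv' := hv
  obtain ⟨hk1, hkK, _, _, hB, v6⟩ := hv'
  have hτ := exp_pos τ
  -- the interval
  obtain ⟨a, ha, hab⟩ : ∃ a, (a = p + exp τ ∨ a = p - 2 * exp τ) ∧
      ((s = 1 ∧ a = p + exp τ) ∨ (s = -1 ∧ a = p - 2 * exp τ)) := by
    rcases v6 with ⟨h, _⟩ | ⟨h, _⟩
    · exact ⟨p + exp τ, Or.inl rfl, Or.inl ⟨h, rfl⟩⟩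
    · exact ⟨p - 2 * exp τ, Or.inr rfl, Or.inr ⟨h, rfl⟩⟩
  set b := a + exp τ with hb
  have hlt : a < b := by linarith
  have hlen : b - a = exp τ := by linarith
  -- the radius
  have hrad : ∀ x ∈ Set.Icc a b, exp τ ≤ |x - p| ∧ |x - p| ≤ 2 * exp τ ∧ x = p + s * |x - p| := by
    rintro x ⟨hx1, hx2⟩
    rcases hab with ⟨h0, h1⟩ | ⟨h0, h1⟩
    · rw [abs_of_nonneg (by linarith), h0]
      exact ⟨by linarith, by linarith, by ring⟩
    · rw [abs_of_nonpos (by linarith), h0]
      exact ⟨by linarith, by linarith, by ring⟩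
  have hxp : ∀ x ∈ Set.Icc a b, x ≠ p := by
    intro x hx h
    have := (hrad x hx).1
    rw [h, sub_self, abs_zero] at this
    linarith
  have hT := tent_fam (B := B - 1 / 4) (p := p) hxp
  have hnum := tent_num hB
  have htk : t (k - 1) ≤ t k := by
    have := ht (k - 1) (by omega)
    rw [Nat.sub_add_cancel hk1] at this
    exact this.le
  have hEpos : 0 < E := by rcases hE with h | ⟨h, _⟩ <;> rw [h] <;> norm_num
  have hB0 : 0 < B := by linarith
  have main := item hT hlt hL hnt (R := (Item.Z k p s τ B).supp) (C := B) hB0 ?_ (g := g) hEpos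
    (κ := B / 6) (by positivity) ?_
  · refine main.mono subset_rfl ?_
    rw [le_div_iff₀ hB0]
    rcases hE with h | ⟨h, h'⟩
    · rw [h, log_one]; nlinarith
    · rw [h]
      have := log_two_lt_d9
      nlinarith
  · intro y
    by_cases hy : y ∈ (Item.Z k p s τ B).supp
    · rw [Set.indicator_of_mem hy, hlen]
      refine (tphi_avg hτ (by linarith) ha y).trans (mul_le_mul_of_nonneg_left ?_ hτ.le)
      simp only [Pi.one_apply, mul_one]
      linarith
    · rw [Set.indicator_of_notMem hy, mul_zero, mul_zero]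
      apply le_of_eq
      rw [intervalIntegral.integral_of_le hlt.le]
      refine setIntegral_eq_zero_of_forall_eq_zero fun x hx => ?_
      have hx' : x ∈ Set.Icc a b := ⟨hx.1.le, hx.2⟩
      obtain ⟨r1, r2, _⟩ := hrad x hx'
      apply tphi_zero (hxp x hx')
      simp only [Item.supp, Set.mem_ofPred_eq, not_and_or, not_lt] at hy
      have hTpos : 0 < exp (B - 1 / 4) + 2 := by positivity
      rcases hy with h | h
      · left
        rw [le_div_iff₀ hTpos]
        calc ‖y - (p : ℂ)‖ * (exp (B - 1 / 4) + 2) ≤ exp (τ - B) * exp B :=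
              mul_le_mul h hnum hTpos.le (exp_pos _).le
          _ = exp τ := by rw [← exp_add]; ring_nf
          _ ≤ |x - p| := r1
      · right
        calc |x - p| * (exp (B - 1 / 4) + 2) ≤ (2 * exp τ) * exp B :=
              mul_le_mul r2 hnum hTpos.le (by positivity)
          _ = 2 * exp (τ + B) := by rw [exp_add]; ring
          _ ≤ _ := h
  · intro x hx
    have hx' : x ∈ Set.Icc a b := Set.Ioo_subset_Icc_self hx
    obtain ⟨r1, r2, r3⟩ := hrad x hx'
    have hr0 : 0 < |x - p| := by linarith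
    set τ' := log |x - p| with hτ'
    have hexp : exp τ' = |x - p| := exp_log hr0
    have u0 : τ ≤ τ' := by
      rw [hτ', le_log_iff_exp_le hr0]; exact r1
    have u1 : τ' ≤ τ + log 2 := by
      rw [hτ', log_le_iff_le_exp hr0, exp_add, exp_log (by norm_num)]
      linarith
    obtain ⟨_, _, hhole, hlog⟩ := hv.useZ u0 u1 htk
    rw [hexp, ← r3] at hhole hlog
    -- the window
    have hwin : t k < x ∧ x < t (k + 1) := by
      rcases hab with ⟨h0, h1⟩ | ⟨h0, h1⟩
      · rcases v6 with ⟨_, w1, w2, _⟩ | ⟨w0, _⟩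
        · exact ⟨by linarith [hx.1], by linarith [hx.2]⟩
        · rw [h0] at w0; norm_num at w0
      · rcases v6 with ⟨w0, _⟩ | ⟨_, w1, w2, _⟩
        · rw [h0] at w0; norm_num at w0
        · exact ⟨by linarith [hx.1], by linarith [hx.2]⟩
    obtain ⟨S', hSS, a', b', hF, ha', hab', hb', hD⟩ := hch k hk1 hkK x hwin.1 hwin.2
    set r := 2 * exp (τ - B / 2) with hr
    have hrpos : 0 < r := by positivity
    refine ⟨S', hSS, a', b', hF, hD, p - r, p + r, ?_, ?_⟩
    · rcases hhole with h | h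
      · right; right
        exact ⟨by linarith, by linarith⟩
      · right; left
        exact ⟨by linarith, by linarith⟩
    · intro y hy hyn hyx
      have hy1 : y ∈ Pool.Agent.W_be22fd_h76sel.N (t (k - 1)) x := by
        refine Pool.Agent.W_be22fd_h76sel.N_mono hab' ha' hb' ?_
        rw [Pool.Agent.W_be22fd_h76sel.N]
        rw [Nb, dsc] at hy
        convert hy using 2
        · congr 1; ring
        · ring
      have hy2 : r < ‖y - (p : ℂ)‖ := by
        by_contra hcon
        rw [not_lt] at hcon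
        apply hyn
        rw [dsc, Metric.mem_closedBall, Complex.dist_eq]
        have e1 : (p - r + (p + r)) / 2 = p := by ring
        have e2 : (p + r - (p - r)) / 2 = r := by ring
        rw [e1, e2]
        exact hcon
      have hyp : y ≠ (p : ℂ) := by
        intro h
        rw [h, sub_self, norm_zero] at hy2
        linarith
      have h3 := hlog y hy1 hy2
      have h4 := tphi_lower (B := B - 1 / 4) (hxp x hx') hyx hyp
      rw [log_div (by linarith) hr0.ne'] at h4
      have := log_two_lt_d9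
      linarith

end Pool.Agent.Be22.Ker
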